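import Pool.Agent.H574R3.CS.Stmts

/-! Task U of project H574-CS. -/

set_option autoImplicit false

namespace Pool.Agent.H574R3.CS

open Polynomial

theorem U_D_left {K : Type} [Field K] {A : Type} [CommRing A] [Algebra K A] (a : Ten K)
    (u v : Fin 4 → A) (α β : A) :
    D a (fun i => α * u i + β * v i) v =
      α ^ 2 * D a u v + 2 * α * β * D a v u + 3 * β ^ 2 * cub a v := by
  simp only [cub, D, Finset.mul_sum, ← Finset.sum_add_distrib]
  refine Finset.sum_congr rfl fun i _ => Finset.sum_congr rfl fun j _ =>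
    Finset.sum_congr rfl fun k _ => ?_
  ring

theorem U_D_zero {K : Type} [Field K] {A : Type} [CommRing A] [Algebra K A] (a : Ten K)
    (v : Fin 4 → A) : D a (fun _ => 0) v = 0 := by
  simp [D]

theorem U_main (K : Type) [Field K] (a : Ten K) (x : Fin 4 → K) (r : Fin 4 → K[X])
    (hx : cub a x = 0) (hr : cub a r = 0) (z : Fin 4 → K) (hz : z = fun i => (r i).eval 0)
    (hA : D a x z ≠ 0) (hB : D a z x ≠ 0)
    (hnc : ∃ i j, C (z i) * r j ≠ C (z j) * r i) : Curve a x := by
  have e0 : ∀ p : K[X], aeval (0 : K) p = p.eval 0 := fun p => by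
    rw [← Polynomial.coe_aeval_eq_eval]
  have hz0 : cub a z = 0 := by
    have h := map_cub a (aeval (0 : K) : K[X] →ₐ[K] K) r
    rw [hr, map_zero] at h
    rw [hz]
    simpa [e0] using h.symm
  obtain ⟨A, hAe⟩ : ∃ A, A = D a x z := ⟨_, rfl⟩
  obtain ⟨B, hBe⟩ : ∃ B, B = D a z x := ⟨_, rfl⟩
  rw [← hAe] at hA
  rw [← hBe] at hB
  obtain ⟨w, hw⟩ : ∃ w : Fin 4 → K, w = fun i => B * x i + (-A) * z i := ⟨_, rfl⟩
  have hcw : cub a w = 0 := by
    rw [hw, cub_comb, hx, hz0, ← hAe, ← hBe]; ring
  have hDzw : D a z w = B ^ 2 := by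
    rw [hw, D_comb, D_self, hz0, ← hBe]; ring
  have hDwz : D a w z = -(A * B ^ 2) := by
    rw [hw, U_D_left, hz0, ← hAe, ← hBe]; ring
  obtain ⟨W, hW⟩ : ∃ W : Fin 4 → K[X], W = fun i => C (w i) := ⟨_, rfl⟩
  have hcW : cub a W = 0 := by
    have h := map_cub a (Algebra.ofId K K[X]) w
    rw [hcw, map_zero] at h
    rw [hW]
    exact h.symm
  obtain ⟨α, hα⟩ : ∃ α, α = D a r W := ⟨_, rfl⟩
  obtain ⟨β, hβ⟩ : ∃ β, β = - D a W r := ⟨_, rfl⟩
  have hr0 : (fun i => aeval (0 : K) (r i)) = z := by
    rw [hz]; funext i; exact e0 _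
  have hW0 : (fun i => aeval (0 : K) (W i)) = w := by
    rw [hW]; funext i; simp
  have hα0 : α.eval 0 = B ^ 2 := by
    rw [hα, ← e0, map_D, hr0, hW0, hDzw]
  have hβ0 : β.eval 0 = A * B ^ 2 := by
    rw [hβ, eval_neg, ← e0, map_D, hr0, hW0, hDwz]; ring
  obtain ⟨P, hP⟩ : ∃ P : Fin 4 → K[X], P = fun i => α * W i + β * r i := ⟨_, rfl⟩
  have hcP : cub a P = 0 := by
    have h1 : D a W r = -β := by rw [hβ]; ring
    rw [hP, cub_comb, hcW, hr, h1, ← hα]; ring
  have hP0 : ∀ i, (P i).eval 0 = B ^ 3 * x i := by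
    intro i
    rw [hP]
    simp only [eval_add, eval_mul, hα0, hβ0]
    have h1 : (r i).eval 0 = z i := by rw [hz]
    have h2 : (W i).eval 0 = w i := by rw [hW]; simp
    rw [h1, h2, hw]
    ring
  refine ⟨P, hcP, ⟨algebraMap K (AlgebraicClosure K) 0, algebraMap K (AlgebraicClosure K) (B ^ 3),
    ?_, ?_⟩, ?_⟩
  · rw [Ne, map_eq_zero]
    exact pow_ne_zero 3 hB
  · intro i
    rw [aeval_algebraMap_apply, e0, hP0, map_mul]
  · by_contra hcon
    push Not at hcon
    have hx0 : ∃ i, x i ≠ 0 := by
      by_contra h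
      push Not at h
      have : x = fun _ => 0 := funext h
      rw [this, U_D_zero] at hAe
      exact hA hAe
    obtain ⟨i1, hi1⟩ := hx0
    obtain ⟨ρ, hρ⟩ : ∃ ρ : K[X], ρ = C (x i1)⁻¹ * P i1 := ⟨_, rfl⟩
    have hPρ : ∀ j, P j = ρ * C (x j) := by
      intro j
      have h := hcon i1 j
      have h2 : C (x i1)⁻¹ * (C (x i1) * P j) = P j := by
        rw [← mul_assoc, ← C_mul, inv_mul_cancel₀ hi1, C_1, one_mul]
      rw [← h2, h, hρ]; ring
    have hρ0 : ρ.eval 0 = B ^ 3 := by
      rw [hρ, eval_mul, eval_C, hP0]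
      field_simp
    obtain ⟨lam, hlam⟩ : ∃ lam, lam = ρ - α * C B := ⟨_, rfl⟩
    obtain ⟨mu, hmu⟩ : ∃ mu, mu = α * C A := ⟨_, rfl⟩
    have hβr : (fun i => β * r i) = fun i => lam * C (x i) + mu * C (z i) := by
      funext i
      have h1 := hPρ i
      rw [hP] at h1
      simp only at h1
      have h2 : W i = C B * C (x i) - C A * C (z i) := by
        rw [hW, hw]
        simp only [C_add, C_mul, C_neg]
        ring
      rw [h2] at h1
      rw [hlam, hmu]
      linear_combination h1
    have hcX : cub a (fun i => C (x i)) = (0 : K[X]) := by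
      have h := map_cub a (Algebra.ofId K K[X]) x
      rw [hx, map_zero] at h
      exact h.symm
    have hcZ : cub a (fun i => C (z i)) = (0 : K[X]) := by
      have h := map_cub a (Algebra.ofId K K[X]) z
      rw [hz0, map_zero] at h
      exact h.symm
    have hDXZ : D a (fun i => C (x i)) (fun i => C (z i)) = C A := by
      have h := map_D a (Algebra.ofId K K[X]) x z
      rw [← hAe] at h
      exact h.symm
    have hDZX : D a (fun i => C (z i)) (fun i => C (x i)) = C B := by
      have h := map_D a (Algebra.ofId K K[X]) z x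
      rw [← hBe] at h
      exact h.symm
    have hprod : lam * mu * (ρ * C A) = 0 := by
      have h1 : cub a (fun i => β * r i) = 0 := by
        have h := cub_comb a r (fun _ => (0 : K[X])) β 0
        simp only [mul_zero, add_zero, zero_mul] at h
        rw [h, hr]
        simp
      rw [hβr, cub_comb, hcX, hcZ, hDXZ, hDZX] at h1
      rw [hlam, hmu] at h1 ⊢
      linear_combination h1
    have hCA : C A ≠ 0 := by
      rw [Ne, C_eq_zero]; exact hA
    have hρne : ρ ≠ 0 := by
      intro h
      rw [h, eval_zero] at hρ0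
      exact pow_ne_zero 3 hB hρ0.symm
    have hαne : α ≠ 0 := by
      intro h
      rw [h, eval_zero] at hα0
      exact pow_ne_zero 2 hB hα0.symm
    have hmune : mu ≠ 0 := by
      rw [hmu]; exact mul_ne_zero hαne hCA
    have hβne : β ≠ 0 := by
      intro h
      rw [h, eval_zero] at hβ0
      exact mul_ne_zero hA (pow_ne_zero 2 hB) hβ0.symm
    have hlam0 : lam = 0 := by
      rcases mul_eq_zero.1 hprod with h | h
      · rcases mul_eq_zero.1 h with h | h
        · exact h
        · exact absurd h hmune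
      · exact absurd h (mul_ne_zero hρne hCA)
    obtain ⟨i, j, hij⟩ := hnc
    apply hij
    apply mul_left_cancel₀ hβne
    have hi := congrFun hβr i
    have hj := congrFun hβr j
    simp only [hlam0, zero_mul, zero_add] at hi hj
    linear_combination C (z i) * hj - C (z j) * hi

theorem taskU : TaskS → TaskU := by
  intro hS K _ a x r hx hr hA hnc
  by_cases hB : D a (fun i => (r i).eval 0) x = 0
  · have e0 : ∀ p : K[X], aeval (0 : K) p = p.eval 0 := fun p => by
      rw [← Polynomial.coe_aeval_eq_eval]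
    have hz0 : cub a (fun i => (r i).eval 0) = 0 := by
      have h := map_cub a (aeval (0 : K) : K[X] →ₐ[K] K) r
      rw [hr, map_zero] at h
      simpa [e0] using h.symm
    refine hS K a x (fun i => (r i).eval 0) hx hz0 hB ?_
    rw [LinearIndependent.pair_iff]
    intro s t hst
    have h1 : D a x (fun i => s * x i + t * (r i).eval 0) = 0 := by
      have : (fun i => s * x i + t * (r i).eval 0) = fun _ => (0 : K) := by
        funext i
        have := congrFun hst i
        simpa using this
      rw [this]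
      simp [D]
    rw [D_comb, D_self, hx, mul_zero, mul_zero, zero_add] at h1
    have ht : t = 0 := by
      rcases mul_eq_zero.1 h1 with h | h
      · exact h
      · exact absurd h hA
    refine ⟨?_, ht⟩
    by_contra hs
    apply hA
    have : x = fun _ => 0 := by
      funext i
      have := congrFun hst i
      rw [ht] at this
      simp at this
      rcases this with h | h
      · exact absurd h hs
      · exact h
    rw [this, U_D_zero]
  · exact U_main K a x r hx hr _ rfl hA hB hnc

end Pool.Agent.H574R3.CS
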